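import Pool.Agent.HdR.Proof

set_option autoImplicit false

namespace Pool.Agent.Results.MP_196708_ag.NotE2Degenerate

open Pool.Agent.HdR

/-- For every field `k` of characteristic zero and every fraction field `K` of
`R = k[[x_0, ..., x_5]]`, the local Hodge–de Rham homology spectral sequence of
`R ↠ A = R/(q x_3, q x_4)`, `q = x_0 x_3 + x_1 x_4 + x_2 x_5`, does not degenerate at `E_2`. -/
theorem result (k : Type*) [Field k] [CharZero k] (K : Type*) [Field K]
    [Algebra (PS k 6) K] [IsFractionRing (PS k 6) K] [Algebra k K] [IsScalarTower k (PS k 6) K] :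
    ¬ (hodgeDeRham K (gens k) (gens_ne_zero k)).DegeneratesAtE2 :=
  fun h => d2_ne_zero k K (h 2 le_rfl 4 6)

end Pool.Agent.Results.MP_196708_ag.NotE2Degenerate
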